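import Pool.Agent.V11231.SZF.Fin

/-!
# Zero sums of three integers on presence bits by circuits with unreliable negations

The definitions used in the statement are in `Pool/Agent/V11231/SZF/Host.lean` (`HasZero`: the set
given by a table of bits has three different elements with sum zero; `size`: its number of elements)
and in `Pool/Agent/V11231/FLT/Slot.lean` (`LiteralCircuit`: circuits of nondecreasing real gates of
fan-in two on bits and negated bits; `acceptance`, `faultyAcceptance`: the probability that a random
circuit of a family accepts an input, without faults and if each negated input is stuck at `0`
independently with probability `1 / D`).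

Idea of the proof. The hard sets for monotone circuits (`H560R2`) are sets of nonnegative integers
and the question is whether `x + y = z`; in the second case there is no solution even with equal
summands. A number `z` is replaced by the faulty positions among the numbers `V + 2 K z + i` (for
its role as a summand) and among the numbers `- 2 V - 2 K z - i` (for its role as a sum),
`0 ≤ i < K`, where `K` is about `D ^ (3 / 2)` and `V = U / 3`. Three such numbers have the sum zero
only if there are two of the first kind and one of the second kind, and then the indices do not wrap
around, so no solutions arise. If `x + y = z` then by the second moment there are faulty positions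
with the indices `i`, `j`, `i + j`, except with small probability; each number becomes only about
`D ^ (1 / 2)` numbers. On these inputs faults only concern bits that are `1`, so a circuit that
tolerates random faults becomes, for fixed faults, a monotone circuit for the small set.
-/

set_option autoImplicit false

namespace Pool.Agent.Results.MP_8f87b2_lc.FaultyNegations

open Pool.Agent.V11231.FLT Pool.Agent.V11231.SZF

/-- Let `t, h ≥ 0`, `b > 0` and `t + h < 2`. Let `N` be large, `U ≥ N ^ (1 + h + b)` and
`1 ≤ D ≤ N ^ h`. Let a finite family of circuits read the presence bits of the sets of at most `N`
integers between `-U` and `U` and the negations of these bits. Suppose that they accept each set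
that contains three different elements with sum zero with probability at least `4 / 5`, even if each
negated input is stuck at `0` independently with probability `1 / D`, and that they accept each
other set with probability at most `1 / 4`, without faults. Then some circuit of the family has more
than `N ^ t` gates. -/
theorem result (t h b : ℝ) (ht : 0 ≤ t) (hh : 0 ≤ h) (hb : 0 < b) (hth : t + h < 2) :
    ∃ N₀ : ℕ, ∀ N : ℕ, N₀ ≤ N → ∀ U : ℕ, (N : ℝ) ^ (1 + h + b) ≤ U →
      ∀ D : ℕ, 1 ≤ D → (D : ℝ) ≤ (N : ℝ) ^ h →
      ∀ (R : Type) [Fintype R] [Nonempty R] (C : R → LiteralCircuit (Set.Icc (-(U : ℤ)) U)),
      (∀ x : Set.Icc (-(U : ℤ)) U → Bool, size x ≤ N → HasZero x →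
        4 / 5 ≤ faultyAcceptance C D x) →
      (∀ x : Set.Icc (-(U : ℤ)) U → Bool, size x ≤ N → ¬ HasZero x → acceptance C x ≤ 1 / 4) →
      ∃ r, (N : ℝ) ^ t < (C r).s :=
  zero_fault t h b ht hh hb hth

end Pool.Agent.Results.MP_8f87b2_lc.FaultyNegations
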