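import Pool.Agent.V11163.NT.S4

/-!
# 3SUM: every digit must be read many times, by tree tensor networks with small bond dimension

The inputs are the bits (sign and absolute value in binary, `val`, `Pool/Agent/W896/FD/Sum3.lean`) of
`n` different integers in `[-n ^ 4, n ^ 4]`; is there a solution of `x_i + x_j + x_l = 0` with three
different indices? A tree tensor network (`Net`, `Pool/Agent/TH700/TN/Defs.lean`) is a binary tree.
Every leaf reads one bit and holds a vector for each of its two values; every inner node combines the
vectors of its children by an arbitrary bilinear map; the output is a linear form of the vector of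
the root. The network accepts if the output is not zero. The coefficients are in any field; the
dimension `|W|` of the vectors is the bond dimension, its logarithm is the memory. A bit may be read
by many leaves. Matrix products (weighted automata and oblivious algebraic branching programs of
width `|W|`), dynamic programming over any tree of the input bits, and the counting of solutions
modulo a prime by such programs are of this kind; the contributions of different computations may
cancel.

The networks have to accept the instances without a solution, and no others. The input has about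
`4 n log₂ n` bits. We show, for each of the about `3 log₂ n` digits `p` with `2 ^ (p + 7) ≤ n ^ 3`: if
the `p`-th digits of the `n` numbers are read at most `k` times on average, while all other bits may
be read as often as one likes, then the memory is at least `n / 2 ^ (O (k))`; this holds also for
random networks with one-sided error and exponentially small acceptance probability. So with a memory
of `n ^ (1 - ε)` bits each of these digits must be read `Ω (ε n log n)` times, and the number of
leaves is `Ω (ε n log ^ 2 n)`. For each single digit the bound is optimal for constant `k` up to the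
constant factor: with bond dimension `2 ^ n + 1` one can decide 3SUM, reading the `p`-th digit of each
number once.

**Proof.** The tree is cut into `O (k ^ 2)` pieces, each of which reads only few of the `p`-th digits
of the numbers which are not read too often; the output is a sum of `|W| ^ (O (k ^ 2))` products of
functions of the pieces (`net_pd`). A coloring of the pieces by two sides gives two sets of indices
of linear size whose `p`-th digits are read on one side only (`exists_color`). A random placement of a
matching on the indices makes many of its pairs cross between the two sets. The matching is coded in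
the higher digits: with `m = (n - 1) / 2`, `M = 8 m + 8`, the numbers are `2 ^ p (M + 4 v + x_v)`,
`2 ^ p (3 M + 4 (m - v') + x_v)`, where `v'` is the partner of `v`, and `- 2 ^ p (4 M + 4 m + 2)`. If
all bits but those of the crossing pairs are fixed, the outputs form a matrix of rank at most
`|W| ^ (O (k ^ 2))` in which all entries `(z, z)` of many `z` are not zero, while for `z ≠ z'` one of
the entries `(z, z')` and `(z', z)` is zero; so the Hadamard product of the matrix with its transpose
is diagonal on these rows, and its rank is at most the square (`rank_sq`).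
-/

set_option autoImplicit false

namespace Pool.Agent.Results.MP_8f87b2_lc.TensorNetworks

open Pool.Agent.TH700.TN Pool.Agent.V11163.NT.S4

/-- The bit `(i, none)` is the sign of the number `i`, the bit `(i, some j)` has the weight `2 ^ j`;
`m + 1` bits are enough for `n ^ 4`. `Valid` are the lists of `n` different integers in
`[-n ^ 4, n ^ 4]`, and `Yes` says that there are three different indices with sum zero. Let `p` be a
digit with `2 ^ (p + 7) ≤ n ^ 3`.

(1) Let `T r` (`r` in a finite nonempty set) be tree tensor networks over fields `K r`, with vectors
indexed by `W r` and output vectors `a r`. Suppose that none of them accepts a yes-instance, and that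
every no-instance is accepted by at least a `2 ^ (- ⌊n / 2 ^ (240 (k + 1))⌋)` fraction of them. If
each `T r` has at most `k n` leaves which read `p`-th digits of the numbers, then
`n ≤ 2 ^ (240 (k + 1)) (⌊log₂ |W r|⌋ + 1)` for some `r`.

(2) For `0 < ε ≤ 1`, all large `n` and each such `p`: if such a family has bond dimensions at most
`2 ^ w` and acceptance probability at least `2 ^ (- μ)` on the no-instances, where
`w, μ ≤ n ^ (1 - ε)`, then some `T r` has at least `(ε / 720) n log₂ n` leaves which read `p`-th
digits of the numbers.

(3) For `0 < ε ≤ 1` and all large `n`: if a network with bond dimension at most `2 ^ w`, where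
`w ≤ n ^ (1 - ε)`, accepts exactly the no-instances (among all instances), then it has at least
`(ε / 360) n (log₂ n) ^ 2` leaves.

(4) For `n ≥ 1`, every field and every digit `p` there is a network with bond dimension `2 ^ n + 1`
with one leaf for the `p`-th digit of each number which accepts exactly the no-instances. -/
theorem result :
    (∀ k n m : ℕ, n ^ 4 < 2 ^ (m + 1) → ∀ p : Fin (m + 1), 2 ^ (p.val + 7) ≤ n ^ 3 →
      ∀ (R : Type) [Fintype R] [Nonempty R] (K W : R → Type) [∀ r, Field (K r)]
        [∀ r, Fintype (W r)] (T : ∀ r, Net (K r) (Fin n × Option (Fin (m + 1))) (W r))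
        (a : ∀ r, W r → K r),
        (∀ r x, Valid x → (T r).value (a r) x ≠ 0 → ¬ Yes x) →
        (∀ x, Valid x → ¬ Yes x → Nat.card R ≤
          2 ^ (n / 2 ^ (240 * (k + 1))) * Nat.card {r // (T r).value (a r) x ≠ 0}) →
        (∀ r, ∑ i, (T r).reads (i, some p) ≤ k * n) →
        ∃ r, n ≤ 2 ^ (240 * (k + 1)) * (Nat.log 2 (Fintype.card (W r)) + 1)) ∧
    (∀ ε : ℝ, 0 < ε → ε ≤ 1 → ∃ n₀ : ℕ, ∀ n ≥ n₀,
      ∀ m w μ : ℕ, n ^ 4 < 2 ^ (m + 1) → (w : ℝ) ≤ (n : ℝ) ^ (1 - ε) →
        (μ : ℝ) ≤ (n : ℝ) ^ (1 - ε) → ∀ p : Fin (m + 1), 2 ^ (p.val + 7) ≤ n ^ 3 →
      ∀ (R : Type) [Fintype R] [Nonempty R] (K W : R → Type) [∀ r, Field (K r)]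
        [∀ r, Fintype (W r)] (T : ∀ r, Net (K r) (Fin n × Option (Fin (m + 1))) (W r))
        (a : ∀ r, W r → K r),
        (∀ r, Fintype.card (W r) ≤ 2 ^ w) →
        (∀ r x, Valid x → (T r).value (a r) x ≠ 0 → ¬ Yes x) →
        (∀ x, Valid x → ¬ Yes x →
          Nat.card R ≤ 2 ^ μ * Nat.card {r // (T r).value (a r) x ≠ 0}) →
        ∃ r, ε / 720 * (n * Real.logb 2 n) ≤ (∑ i, (T r).reads (i, some p) : ℕ)) ∧
    (∀ ε : ℝ, 0 < ε → ε ≤ 1 → ∃ n₀ : ℕ, ∀ n ≥ n₀,
      ∀ m w : ℕ, n ^ 4 < 2 ^ (m + 1) → (w : ℝ) ≤ (n : ℝ) ^ (1 - ε) →
      ∀ (K W : Type) [Field K] [Fintype W] (T : Net K (Fin n × Option (Fin (m + 1))) W)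
        (a : W → K), Fintype.card W ≤ 2 ^ w →
        (∀ x, Valid x → (T.value a x ≠ 0 ↔ ¬ Yes x)) →
        ε / 360 * (n * Real.logb 2 n ^ 2) ≤ (∑ v, T.reads v : ℕ)) ∧
    ∀ (K : Type) [Field K] (n m : ℕ), 1 ≤ n → ∀ p : Fin (m + 1),
      ∃ (W : Type) (_ : Fintype W) (T : Net K (Fin n × Option (Fin (m + 1))) W) (a : W → K),
        Fintype.card W = 2 ^ n + 1 ∧ (∀ i, T.reads (i, some p) = 1) ∧
          ∀ x, T.value a x ≠ 0 ↔ Valid x ∧ ¬ Yes x :=
  ⟨fun k n m hm p hp R _ _ K W _ _ T a hU hc hd => sum4 k n m hm p hp R K W T a hU hc hd,
    fun _ hε hε1 => sum4_asym hε hε1, fun _ hε hε1 => sum4_total hε hε1,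
    fun K _ n m hn p => sum4_upper K n m hn p⟩

end Pool.Agent.Results.MP_8f87b2_lc.TensorNetworks
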